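import Mathlib
import Pool.Agent.X152.DS.Sieve
import Pool.Agent.K7.H64.DS.Sol

set_option autoImplicit false

/-!
# Reduced fractions with numerators in a residue class, in short intervals
-/

namespace Pool.Agent.W2helper68.DSR

open Finset Pool.Agent.K7.H64.DS

/-- `2 ^ ω(n)` is small compared with `φ(n)` -/
theorem two_pow_le (n : ℕ) (hn : 0 < n) :
    (2 : ℝ) ^ (#n.primeFactors) * Real.sqrt n ≤ 108 * (Nat.totient n : ℝ) := by
  have h1 : (Nat.totient n : ℝ) = n * ∏ p ∈ n.primeFactors, (1 - (p : ℝ)⁻¹) := by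
    have h := Nat.totient_eq_mul_prod_factors n
    have h2 : ((Nat.totient n : ℚ) : ℝ) =
        (((n : ℚ) * ∏ p ∈ n.primeFactors, (1 - (p : ℚ)⁻¹) : ℚ) : ℝ) := by rw [h]
    push_cast at h2
    exact h2
  have h3 : (3 / 4 : ℝ) * ∏ p ∈ n.primeFactors, (2 / 3 : ℝ) ≤
      ∏ p ∈ n.primeFactors, (1 - (p : ℝ)⁻¹) := by
    by_cases h2 : 2 ∈ n.primeFactors
    · rw [← mul_prod_erase _ _ h2, ← mul_prod_erase _ _ h2]
      have h4 : ∏ p ∈ n.primeFactors.erase 2, (2 / 3 : ℝ) ≤
          ∏ p ∈ n.primeFactors.erase 2, (1 - (p : ℝ)⁻¹) := by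
        refine prod_le_prod (fun _ _ => by norm_num) fun p hp => ?_
        rw [mem_erase] at hp
        have hpp := Nat.prime_of_mem_primeFactors hp.2
        have h5 : 3 ≤ p := by
          have := hpp.two_le
          omega
        have h6 : (3 : ℝ) ≤ p := by exact_mod_cast h5
        have h7 : (p : ℝ)⁻¹ ≤ 3⁻¹ := inv_anti₀ (by norm_num) h6
        linarith
      have h8 : 0 ≤ ∏ p ∈ n.primeFactors.erase 2, (2 / 3 : ℝ) :=
        prod_nonneg fun _ _ => by norm_num
      push_cast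
      nlinarith
    · have h4 : ∏ p ∈ n.primeFactors, (2 / 3 : ℝ) ≤
          ∏ p ∈ n.primeFactors, (1 - (p : ℝ)⁻¹) := by
        refine prod_le_prod (fun _ _ => by norm_num) fun p hp => ?_
        have hpp := Nat.prime_of_mem_primeFactors hp
        have h5 : 3 ≤ p := by
          have := hpp.two_le
          rcases Nat.lt_or_ge p 3 with h | h
          · have : p = 2 := by omega
            rw [this] at hp
            exact absurd hp h2
          · exact h
        have h6 : (3 : ℝ) ≤ p := by exact_mod_cast h5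
        have h7 : (p : ℝ)⁻¹ ≤ 3⁻¹ := inv_anti₀ (by norm_num) h6
        linarith
      have h8 : 0 ≤ ∏ p ∈ n.primeFactors, (2 / 3 : ℝ) :=
        prod_nonneg fun _ _ => by norm_num
      nlinarith
  rw [prod_const] at h3
  have h4 := Pool.Agent.X152.DS.three_pow_omega n hn
  set w := #n.primeFactors with hw
  have hn' : (0 : ℝ) < n := by exact_mod_cast hn
  have hs : Real.sqrt n * Real.sqrt n = n := Real.mul_self_sqrt hn'.le
  have hs0 : 0 < Real.sqrt n := Real.sqrt_pos.2 hn'
  have h5 : (n : ℝ) * (3 / 4 * (2 / 3) ^ w) ≤ Nat.totient n := by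
    rw [h1]
    exact mul_le_mul_of_nonneg_left h3 hn'.le
  have h6 : (2 / 3 : ℝ) ^ w * 3 ^ w = 2 ^ w := by
    rw [← mul_pow]
    norm_num
  have h7 : (2 : ℝ) ^ w * Real.sqrt n ≤ 81 * ((2 / 3 : ℝ) ^ w * n) := by
    rw [← h6]
    have h8 : (0 : ℝ) < (2 / 3) ^ w := by positivity
    calc (2 / 3 : ℝ) ^ w * 3 ^ w * Real.sqrt n
        ≤ (2 / 3 : ℝ) ^ w * (81 * Real.sqrt n) * Real.sqrt n := by gcongr
      _ = 81 * ((2 / 3 : ℝ) ^ w * (Real.sqrt n * Real.sqrt n)) := by ring
      _ = 81 * ((2 / 3 : ℝ) ^ w * n) := by rw [hs]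
  linarith

/-- the numerators of the reduced fractions of denominator `n` which are `u` modulo `v` -/
def redu (v : ℕ) (u : ℤ) (n : ℕ) : Finset ℕ := (red n).filter fun a => (a : ℤ) ≡ u [ZMOD (v : ℤ)]

/-- the local count -/
theorem local_count (v : ℕ) (hv : 0 < v) (u : ℤ) (huv : Int.gcd u v = 1) (N : ℕ) (hN : 0 < N)
    (n : ℕ) (hvn : v ∣ n) (hn : (432 * v * N) ^ 2 ≤ n) (i : ℕ) (hi : i < N) :
    (Nat.totient n : ℝ) / (2 * v * N) ≤
      #((redu v u n).filter fun a : ℕ => (i : ℝ) / N ≤ (a : ℝ) / n ∧ (a : ℝ) / n < ((i : ℝ) + 1) / N) := by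
  classical
  have hn0 : 0 < n := lt_of_lt_of_le (by positivity) hn
  have hn' : (0 : ℝ) < n := by exact_mod_cast hn0
  have hN' : (0 : ℝ) < N := by exact_mod_cast hN
  have hv' : (0 : ℝ) < v := by exact_mod_cast hv
  set T : Finset ℕ := n.primeFactors.filter fun l => ¬ l ∣ v with hT
  set X : ℤ := ⌈(i : ℝ) * n / N⌉ with hX
  set Y : ℤ := ⌈((i : ℝ) + 1) * n / N⌉ with hY
  have hXY : X ≤ Y := by
    apply Int.ceil_mono
    gcongr
    linarith
  have hX0 : 0 ≤ X := by
    apply Int.ceil_nonneg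
    positivity
  have hYn : Y ≤ n := by
    rw [hY, Int.ceil_le]
    push_cast
    rw [div_le_iff₀ hN']
    have : (i : ℝ) + 1 ≤ N := by exact_mod_cast hi
    nlinarith
  have h := Pool.Agent.X152.DS.sieve (fun _ => {0}) T
    (fun l hl => Nat.prime_of_mem_primeFactors (mem_filter.1 hl).1) v u hv
    (fun l hl => ((Nat.Prime.coprime_iff_not_dvd
      (Nat.prime_of_mem_primeFactors (mem_filter.1 hl).1)).2 (mem_filter.1 hl).2).symm)
    X Y hXY
  simp only [card_singleton, Nat.cast_one] at h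
  have hprod2 : ∏ l ∈ T, (1 + 1 : ℝ) ≤ 2 ^ (#n.primeFactors) := by
    rw [prod_const]
    norm_num
    exact pow_le_pow_right₀ (by norm_num) (card_le_card (filter_subset _ _))
  have hphi : (Nat.totient n : ℝ) / n ≤ ∏ l ∈ T, (1 - (1 : ℝ) / l) := by
    have h1 : (Nat.totient n : ℝ) = n * ∏ p ∈ n.primeFactors, (1 - (1 : ℝ) / p) := by
      have h := Nat.totient_eq_mul_prod_factors n
      have h2 : ((Nat.totient n : ℚ) : ℝ) =
          (((n : ℚ) * ∏ p ∈ n.primeFactors, (1 - (p : ℚ)⁻¹) : ℚ) : ℝ) := by rw [h]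
      push_cast at h2
      simpa only [one_div] using h2
    rw [h1, mul_div_cancel_left₀ _ hn'.ne', ← prod_filter_mul_prod_filter_not n.primeFactors
      (fun l => ¬ l ∣ v)]
    have h2 : ∀ p ∈ n.primeFactors, 0 ≤ 1 - (1 : ℝ) / p ∧ 1 - (1 : ℝ) / p ≤ 1 := by
      intro p hp
      have hpp := (Nat.prime_of_mem_primeFactors hp).one_lt
      have h6 : (1 : ℝ) < p := by exact_mod_cast hpp
      have h7 : (1 : ℝ) / p ≤ 1 := by rw [div_le_one (by linarith)]; linarith
      have h8 : 0 ≤ (1 : ℝ) / p := by positivity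
      constructor <;> linarith
    refine mul_le_of_le_one_right (prod_nonneg fun p hp => (h2 p (mem_filter.1 hp).1).1) ?_
    exact prod_le_one (fun p hp => (h2 p (mem_filter.1 hp).1).1)
      fun p hp => (h2 p (mem_filter.1 hp).1).2
  set c := #{z ∈ Ico X Y | z ≡ u [ZMOD (v : ℤ)] ∧ ∀ l ∈ T, ((z : ℤ) : ZMod l) ∉ ({0} : Finset (ZMod l))}
    with hc
  -- the count
  have hsub : (c : ℝ) ≤
      #((redu v u n).filter fun a : ℕ => (i : ℝ) / N ≤ (a : ℝ) / n ∧ (a : ℝ) / n < ((i : ℝ) + 1) / N) := by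
    rw [Nat.cast_le, hc]
    refine card_le_card_of_injOn (fun z => z.toNat) ?_ ?_
    · intro z hz
      simp only [coe_filter, Set.mem_ofPred_eq, mem_Ico] at hz
      obtain ⟨⟨hz1, hz2⟩, hz3, hz4⟩ := hz
      have hz0 : 0 ≤ z := hX0.trans hz1
      have hzn : z < n := lt_of_lt_of_le hz2 hYn
      have hzc : ((z.toNat : ℕ) : ℤ) = z := Int.toNat_of_nonneg hz0
      have hzr : ((z.toNat : ℕ) : ℝ) = (z : ℝ) := by exact_mod_cast hzc
      simp only [coe_filter, Set.mem_ofPred_eq, redu, mem_filter]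
      refine ⟨⟨?_, ?_⟩, ?_, ?_⟩
      · rw [red, mem_filter, mem_range]
        refine ⟨by omega, ?_⟩
        rw [Nat.coprime_iff_gcd_eq_one]
        by_contra hne
        obtain ⟨l, hl, hld⟩ := Nat.exists_prime_and_dvd hne
        have hl1 : l ∣ z.toNat := hld.trans (Nat.gcd_dvd_left _ _)
        have hl2 : l ∣ n := hld.trans (Nat.gcd_dvd_right _ _)
        have hlz : (l : ℤ) ∣ z := by rw [← hzc]; exact_mod_cast hl1
        by_cases hlv : l ∣ v
        · have h5 : (l : ℤ) ∣ u := by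
            have h6 : (v : ℤ) ∣ u - z := hz3.dvd
            have h7 : (l : ℤ) ∣ u - z := dvd_trans (by exact_mod_cast hlv) h6
            have := dvd_add h7 hlz
            rwa [sub_add_cancel] at this
          have h8 : (l : ℤ) ∣ ((Int.gcd u v : ℕ) : ℤ) := Int.dvd_coe_gcd h5 (by exact_mod_cast hlv)
          rw [huv] at h8
          have h9 : l ∣ 1 := by exact_mod_cast h8
          exact hl.one_lt.ne' (Nat.dvd_one.1 h9)
        · have hlT : l ∈ T := by
            rw [hT, mem_filter, Nat.mem_primeFactors]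
            exact ⟨⟨hl, hl2, hn0.ne'⟩, hlv⟩
          have h5 := hz4 l hlT
          rw [mem_singleton] at h5
          exact h5 ((ZMod.intCast_zmod_eq_zero_iff_dvd z l).2 hlz)
      · rw [hzc]; exact hz3
      · rw [hzr, div_le_div_iff₀ hN' hn']
        have := Int.ceil_le.1 hz1
        rw [div_le_iff₀ hN'] at this
        linarith
      · rw [hzr, div_lt_div_iff₀ hn' hN']
        have := Int.lt_ceil.1 hz2
        rw [lt_div_iff₀ hN'] at this
        linarith
    · intro z hz z' hz' hzz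
      simp only [coe_filter, Set.mem_ofPred_eq, mem_Ico] at hz hz'
      have h1 := hX0.trans hz.1.1
      have h2 := hX0.trans hz'.1.1
      simp only at hzz
      omega
  refine le_trans ?_ hsub
  rw [abs_le] at h
  have h9 := h.1
  have hlen : (n : ℝ) / N - 1 ≤ (Y : ℝ) - X := by
    have h1 : ((i : ℝ) + 1) * n / N ≤ Y := Int.le_ceil _
    have h2 : (X : ℝ) < (i : ℝ) * n / N + 1 := Int.ceil_lt_add_one _
    have h3 : ((i : ℝ) + 1) * n / N = (i : ℝ) * n / N + n / N := by ring
    linarith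
  have hcl : ((n : ℝ) / N - 1) / v * ((Nat.totient n : ℝ) / n) ≤
      ((Y : ℝ) - X) / v * ∏ l ∈ T, (1 - (1 : ℝ) / l) := by
    have hnN : (0 : ℝ) ≤ n / N - 1 := by
      rw [sub_nonneg, le_div_iff₀ hN', one_mul]
      have h1 : N ≤ (432 * v * N) ^ 2 :=
        (Nat.le_mul_of_pos_left N (by positivity)).trans (Nat.le_self_pow (by norm_num) _)
      exact_mod_cast h1.trans hn
    have hYX : (0 : ℝ) ≤ (Y : ℝ) - X := by
      have : (X : ℝ) ≤ Y := by exact_mod_cast hXY
      linarith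
    refine mul_le_mul ?_ hphi (by positivity) (by positivity)
    gcongr
  have h2w := two_pow_le n hn0
  have hsn : (432 * v * N : ℝ) ≤ Real.sqrt n := by
    apply Real.le_sqrt_of_sq_le
    exact_mod_cast hn
  have hphn : (Nat.totient n : ℝ) ≤ n := by exact_mod_cast Nat.totient_le n
  have hone : (1 : ℝ) ≤ 2 ^ (#n.primeFactors) := one_le_pow₀ (by norm_num)
  set W : ℝ := 2 ^ (#n.primeFactors) with hW
  set F : ℝ := (Nat.totient n : ℝ) with hF
  have hF0 : 0 ≤ F := by positivity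
  have hWF : W * (4 * v * N) ≤ F := by
    have h1 : W * (432 * v * N) ≤ 108 * F := by
      calc W * (432 * v * N) ≤ W * Real.sqrt n := by gcongr
        _ ≤ 108 * F := h2w
    linarith
  have h10 : ((n : ℝ) / N - 1) / v * (F / n) = F / (v * N) - F / (n * v) := by
    field_simp
  have h11 : F / (n * v) ≤ 1 := by
    rw [div_le_one (by positivity)]
    have : (1 : ℝ) ≤ v := by exact_mod_cast hv
    nlinarith
  have h12 : W ≤ F / (4 * v * N) := by
    rw [le_div_iff₀ (by positivity)]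
    exact hWF
  have h13 : F / (4 * v * N) = F / (v * N) / 4 := by
    field_simp
  have h14 : F / (2 * v * N) = F / (v * N) / 2 := by
    field_simp
  rw [h10] at hcl
  rw [h14]
  rw [h13] at h12
  have h20 : F / (v * N) - 1 - W ≤ c := by
    have h21 := h9
    generalize hA1 : ((Y : ℝ) - X) / v * ∏ l ∈ T, (1 - (1 : ℝ) / l) = A1 at h21 hcl
    generalize hA2 : ∏ l ∈ T, (1 + 1 : ℝ) = A2 at h21 hprod2
    linarith
  linarith

end Pool.Agent.W2helper68.DSR
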