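import Mathlib
import Pool.Agent.K7.H64.DS.Assemble
import Pool.Agent.W2helper68.DSR.Cnt

set_option autoImplicit false

/-!
# Pairs of close fractions, by the second moment on the circle
-/

namespace Pool.Agent.W2helper68.DSR

open Finset MeasureTheory Pool.Agent.K7.H64.DS

theorem bi_mul_eq (c c' : UnitAddCircle) (r r' : ℝ) :
    ∫ x, bi c r x * bi c' r' x = (volume (Metric.ball c r ∩ Metric.ball c' r')).toReal := by
  have h : (fun x => bi c r x * bi c' r' x) =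
      (Metric.ball c r ∩ Metric.ball c' r').indicator (fun _ => (1 : ℝ)) := by
    funext x
    unfold bi
    by_cases h1 : x ∈ Metric.ball c r <;> by_cases h2 : x ∈ Metric.ball c' r' <;>
      simp [Set.indicator, h1, h2]
  rw [h, integral_indicator_const _ (Metric.isOpen_ball.inter Metric.isOpen_ball).measurableSet,
    smul_eq_mul, mul_one]
  rfl

theorem dist_coe_le (x y : ℝ) : dist (x : UnitAddCircle) (y : UnitAddCircle) ≤ |x - y| := by
  rw [dist_eq_norm, ← AddCircle.coe_sub]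
  rw [UnitAddCircle.norm_eq]
  have h := round_le (x - y) 0
  simpa using h

theorem pair_le (x y r s : ℝ) (hr0 : 0 ≤ r) (hs0 : 0 ≤ s) (hr : r ≤ 1 / 2) :
    (if |x - y| < r + s then 2 * min r s else 0) ≤
      ∫ z, bi (x : UnitAddCircle) (2 * r) z * bi (y : UnitAddCircle) (2 * s) z := by
  split_ifs with h
  · have hrs : 0 < r + s := lt_of_le_of_lt (abs_nonneg _) h
    set t := min r s with ht
    have ht0 : 0 ≤ t := le_min hr0 hs0
    set z : ℝ := (x * s + y * r) / (r + s) with hz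
    have hzx : |z - x| ≤ r := by
      have e : z - x = r * ((y - x) / (r + s)) := by
        rw [hz]; field_simp; ring
      rw [e, abs_mul, abs_of_nonneg hr0, abs_div, abs_of_pos hrs, abs_sub_comm y x]
      have h1 : |x - y| / (r + s) ≤ 1 := by rw [div_le_one hrs]; exact h.le
      nlinarith
    have hzy : |z - y| ≤ s := by
      have e : z - y = s * ((x - y) / (r + s)) := by
        rw [hz]; field_simp; ring
      rw [e, abs_mul, abs_of_nonneg hs0, abs_div, abs_of_pos hrs]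
      have h1 : |x - y| / (r + s) ≤ 1 := by rw [div_le_one hrs]; exact h.le
      nlinarith
    rw [bi_mul_eq]
    have hsub : Metric.ball (z : UnitAddCircle) t ⊆
        Metric.ball (x : UnitAddCircle) (2 * r) ∩ Metric.ball (y : UnitAddCircle) (2 * s) := by
      intro w hw
      rw [Metric.mem_ball] at hw
      constructor
      · rw [Metric.mem_ball]
        have h1 := dist_triangle w (z : UnitAddCircle) (x : UnitAddCircle)
        have h2 := dist_coe_le z x
        have h3 : t ≤ r := min_le_left _ _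
        linarith
      · rw [Metric.mem_ball]
        have h1 := dist_triangle w (z : UnitAddCircle) (y : UnitAddCircle)
        have h2 := dist_coe_le z y
        have h3 : t ≤ s := min_le_right _ _
        linarith
    have h1 : volume (Metric.ball (z : UnitAddCircle) t) = ENNReal.ofReal (2 * t) :=
      vol_ball _ t ht0 ((min_le_left _ _).trans hr)
    have h2 : (volume (Metric.ball (z : UnitAddCircle) t)).toReal ≤
        (volume (Metric.ball (x : UnitAddCircle) (2 * r) ∩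
          Metric.ball (y : UnitAddCircle) (2 * s))).toReal :=
      ENNReal.toReal_mono (measure_ne_top _ _) (measure_mono hsub)
    rw [h1, ENNReal.toReal_ofReal (by linarith)] at h2
    exact h2
  · exact integral_nonneg fun z => mul_nonneg (bi_nonneg _ _ _) (bi_nonneg _ _ _)

theorem rad_nonneg (θ : ℕ → ℝ) (h0 : ∀ n, 0 ≤ θ n) (n : ℕ) : 0 ≤ rad θ n := by
  unfold rad
  have := h0 n
  positivity

theorem Ip_ge (θ : ℕ → ℝ) (h0 : ∀ n, 0 ≤ θ n) (h1 : ∀ n, θ n ≤ 1) (m n : ℕ) (hm : 0 < m)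
    (R R' : Finset ℕ) (hR : R ⊆ red m) (hR' : R' ⊆ red n) :
    ∑ a ∈ R, ∑ b ∈ R', (if |(a : ℝ) / m - (b : ℝ) / n| < rad θ m / 2 + rad θ n / 2
      then 2 * min (rad θ m / 2) (rad θ n / 2) else 0) ≤ Ip θ m n := by
  have h : (fun x => fn m (rad θ m) x * fn n (rad θ n) x) = fun x => ∑ a ∈ red m, ∑ b ∈ red n,
      bi (cpt a m) (rad θ m) x * bi (cpt b n) (rad θ n) x := by
    funext x
    unfold fn
    rw [sum_mul_sum]
  have h2 : Ip θ m n = ∑ a ∈ red m, ∑ b ∈ red n,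
      ∫ x, bi (cpt a m) (rad θ m) x * bi (cpt b n) (rad θ n) x := by
    unfold Ip
    rw [h, integral_finsetSum _ fun a _ => integrable_finsetSum _ fun b _ =>
      bi_mul_integrable _ _ _ _]
    refine sum_congr rfl fun a _ => ?_
    rw [integral_finsetSum _ fun b _ => bi_mul_integrable _ _ _ _]
  have hpos : ∀ a b, 0 ≤ ∫ x, bi (cpt a m) (rad θ m) x * bi (cpt b n) (rad θ n) x := fun a b =>
    integral_nonneg fun z => mul_nonneg (bi_nonneg _ _ _) (bi_nonneg _ _ _)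
  rw [h2]
  have hrm := rad_le θ m hm (h1 m)
  have hrm0 := rad_nonneg θ h0 m
  have hrn0 := rad_nonneg θ h0 n
  calc ∑ a ∈ R, ∑ b ∈ R', (if |(a : ℝ) / m - (b : ℝ) / n| < rad θ m / 2 + rad θ n / 2
      then 2 * min (rad θ m / 2) (rad θ n / 2) else 0)
      ≤ ∑ a ∈ R, ∑ b ∈ R', ∫ x, bi (cpt a m) (rad θ m) x * bi (cpt b n) (rad θ n) x := by
        refine sum_le_sum fun a _ => sum_le_sum fun b _ => ?_
        have h3 := pair_le ((a : ℝ) / m) ((b : ℝ) / n) (rad θ m / 2) (rad θ n / 2) (by linarith)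
          (by linarith) (by linarith)
        rw [mul_div_cancel₀ _ (two_ne_zero), mul_div_cancel₀ _ (two_ne_zero)] at h3
        exact h3
    _ ≤ ∑ a ∈ R, ∑ b ∈ red n, ∫ x, bi (cpt a m) (rad θ m) x * bi (cpt b n) (rad θ n) x :=
        sum_le_sum fun a _ => sum_le_sum_of_subset_of_nonneg hR' fun b _ _ => hpos a b
    _ ≤ ∑ a ∈ red m, ∑ b ∈ red n, ∫ x, bi (cpt a m) (rad θ m) x * bi (cpt b n) (rad θ n) x :=
        sum_le_sum_of_subset_of_nonneg hR fun a _ _ => sum_nonneg fun b _ => hpos a b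

/-- the index set: fractions with denominators in `S` and numerators congruent to `u` modulo `v` -/
def JJ (v : ℕ) (u : ℤ) (S : Finset ℕ) : Finset (Σ _ : ℕ, ℕ) := S.sigma fun n => redu v u n

theorem pairs_bound : ∃ C : ℝ, 0 < C ∧ ∀ (v : ℕ) (u : ℤ) (S : Finset ℕ), (∀ n ∈ S, 0 < n) →
    ∀ θ : ℕ → ℝ, (∀ n, 0 ≤ θ n) → (∀ n, θ n ≤ 1) → (∀ n ∈ S, 0 < θ n) → 1 ≤ ∑ n ∈ S, θ n →
    ∑ j ∈ JJ v u S, ∑ k ∈ JJ v u S, (if |(j.2 : ℝ) / j.1 - (k.2 : ℝ) / k.1| <
      rad θ j.1 / 2 + rad θ k.1 / 2 then min (rad θ j.1 / 2) (rad θ k.1 / 2) else 0) ≤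
      C * (∑ n ∈ S, θ n) ^ 2 := by
  classical
  obtain ⟨C, hC0, hC⟩ := second_moment 1 le_rfl 1 one_pos
  refine ⟨1 + C, by linarith, ?_⟩
  intro v u S hS θ h0 h1 hθ hsum
  have h := hC S hS θ h0 h1 hθ
  simp only [pow_one] at h
  set Ψ := ∑ n ∈ S, θ n with hΨ
  have hΨ0 : 0 ≤ Ψ := by linarith
  have hsq : Real.sqrt Ψ ^ 3 ≤ Ψ ^ 2 := by
    have e1 : Real.sqrt Ψ ^ 2 = Ψ := Real.sq_sqrt hΨ0
    have e2 : Real.sqrt Ψ ≤ Ψ := by
      rw [Real.sqrt_le_left hΨ0]
      nlinarith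
    have e3 : Real.sqrt Ψ ^ 3 = Ψ * Real.sqrt Ψ := by
      rw [pow_succ, e1]
    rw [e3, sq]
    exact mul_le_mul_of_nonneg_left e2 hΨ0
  have hle : Ψ ≤ Ψ ^ 2 := by nlinarith
  have hmain : ∑ j ∈ JJ v u S, ∑ k ∈ JJ v u S, (if |(j.2 : ℝ) / j.1 - (k.2 : ℝ) / k.1| <
      rad θ j.1 / 2 + rad θ k.1 / 2 then 2 * min (rad θ j.1 / 2) (rad θ k.1 / 2) else 0) ≤
      ∑ e ∈ S ×ˢ S, Ip θ e.1 e.2 := by
    rw [sum_product, JJ, sum_sigma]
    refine sum_le_sum fun m hm => ?_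
    have e2 : ∀ a ∈ redu v u m, (∑ k ∈ S.sigma fun n => redu v u n,
        (if |((a : ℕ) : ℝ) / m - (k.2 : ℝ) / k.1| < rad θ m / 2 + rad θ k.1 / 2
          then 2 * min (rad θ m / 2) (rad θ k.1 / 2) else 0)) =
        ∑ n ∈ S, ∑ b ∈ redu v u n, (if |((a : ℕ) : ℝ) / m - (b : ℝ) / n| < rad θ m / 2 + rad θ n / 2
          then 2 * min (rad θ m / 2) (rad θ n / 2) else 0) := by
      intro a _
      rw [sum_sigma]
    rw [sum_congr rfl e2, sum_comm]
    refine sum_le_sum fun n _ => ?_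
    exact Ip_ge θ h0 h1 m n (hS m hm) _ _ (filter_subset _ _) (filter_subset _ _)
  have hhalf : ∑ j ∈ JJ v u S, ∑ k ∈ JJ v u S, (if |(j.2 : ℝ) / j.1 - (k.2 : ℝ) / k.1| <
      rad θ j.1 / 2 + rad θ k.1 / 2 then 2 * min (rad θ j.1 / 2) (rad θ k.1 / 2) else 0) =
      2 * ∑ j ∈ JJ v u S, ∑ k ∈ JJ v u S, (if |(j.2 : ℝ) / j.1 - (k.2 : ℝ) / k.1| <
      rad θ j.1 / 2 + rad θ k.1 / 2 then min (rad θ j.1 / 2) (rad θ k.1 / 2) else 0) := by
    rw [mul_sum]
    refine sum_congr rfl fun j _ => ?_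
    rw [mul_sum]
    refine sum_congr rfl fun k _ => ?_
    split_ifs <;> ring
  rw [hhalf] at hmain
  nlinarith

end Pool.Agent.W2helper68.DSR
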