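import Mathlib
import Pool.Agent.W2helper68.DSR.Cnt

set_option autoImplicit false

/-!
# The residue sets for a rational shift
-/

namespace Pool.Agent.W2helper68.DSR

open Finset Pool.Agent.K7.H64.DS

/-- the residues `a` modulo `q` with `gcd (v a + u, q) = 1` -/
def II (v : ℕ) (u : ℤ) (q : ℕ) : Finset ℕ :=
  (range q).filter fun a : ℕ => Int.gcd ((v : ℤ) * a + u) q = 1

/-- from a numerator modulo `v q` to a residue modulo `q` -/
def bk (v : ℕ) (u : ℤ) (q : ℕ) (a : ℕ) : ℕ := (((a : ℤ) - u) / v % q).toNat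

theorem bk_spec (v : ℕ) (hv : 0 < v) (u : ℤ) (q : ℕ) (hq : 0 < q) (a : ℕ)
    (ha : a ∈ redu v u (v * q)) :
    bk v u q a ∈ II v u q ∧ ∃ k : ℤ, (v : ℤ) * (bk v u q a : ℕ) + u = a + v * q * k := by
  rw [redu, mem_filter, red, mem_filter, mem_range] at ha
  obtain ⟨⟨ha1, ha2⟩, ha3⟩ := ha
  have hq' : (0 : ℤ) < q := by exact_mod_cast hq
  have h0 : 0 ≤ ((a : ℤ) - u) / v % q := Int.emod_nonneg _ hq'.ne'
  have h1 : ((a : ℤ) - u) / v % q < q := Int.emod_lt_of_pos _ hq'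
  have hb : ((bk v u q a : ℕ) : ℤ) = ((a : ℤ) - u) / v % q := Int.toNat_of_nonneg h0
  obtain ⟨t, ht⟩ : (v : ℤ) ∣ (a : ℤ) - u := ha3.symm.dvd
  have hv' : (v : ℤ) ≠ 0 := by exact_mod_cast hv.ne'
  have hdiv : ((a : ℤ) - u) / v = t := by
    rw [ht, Int.mul_ediv_cancel_left _ hv']
  have hk : (v : ℤ) * (bk v u q a : ℕ) + u = a + v * q * (-(t / q)) := by
    rw [hb, hdiv]
    have h3 := Int.emod_add_mul_ediv t q
    have h4 : (t % q : ℤ) = t - q * (t / q) := by linarith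
    rw [h4]
    linear_combination (-1 : ℤ) * ht
  refine ⟨?_, _, hk⟩
  rw [II, mem_filter, mem_range]
  refine ⟨?_, ?_⟩
  · have : ((bk v u q a : ℕ) : ℤ) < q := by rw [hb]; exact h1
    exact_mod_cast this
  · rw [hk]
    have h5 : Int.gcd ((a : ℤ) + v * q * (-(t / q))) q = Int.gcd (a : ℤ) q := by
      rw [show (a : ℤ) + v * q * (-(t / q)) = a + (v * (-(t / q))) * q by ring]
      exact Int.gcd_add_mul_right_left _ _ _
    rw [h5, Int.gcd_natCast_natCast]
    exact Nat.Coprime.coprime_mul_left_right ha2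

theorem card_redu_le (v : ℕ) (hv : 0 < v) (u : ℤ) (q : ℕ) (hq : 0 < q) :
    #(redu v u (v * q)) ≤ #(II v u q) := by
  refine card_le_card_of_injOn (bk v u q) (fun a ha => (bk_spec v hv u q hq a ha).1) ?_
  intro a ha b hb hab
  obtain ⟨k, hk⟩ := (bk_spec v hv u q hq a ha).2
  obtain ⟨l, hl⟩ := (bk_spec v hv u q hq b hb).2
  rw [hab, hl] at hk
  have ha' := ha
  have hb' := hb
  simp only [coe_filter, redu, red, mem_filter, mem_range, Set.mem_ofPred_eq] at ha' hb'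
  have h1 : ((a : ℤ)) % ((v * q : ℕ) : ℤ) = (b : ℤ) % ((v * q : ℕ) : ℤ) := by
    have h2 : (a : ℤ) = b + ((v * q : ℕ) : ℤ) * (l - k) := by
      push_cast
      linear_combination (-1 : ℤ) * hk
    rw [h2, Int.add_mul_emod_self_left]
  have h3 : a % (v * q) = b % (v * q) := by exact_mod_cast h1
  rwa [Nat.mod_eq_of_lt ha'.1.1, Nat.mod_eq_of_lt hb'.1.1] at h3

/-- the number of the residues is at most `φ (v q)` -/
theorem card_II_le (v : ℕ) (hv : 0 < v) (u : ℤ) (huv : Int.gcd u v = 1) (q : ℕ) (hq : 0 < q) :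
    #(II v u q) ≤ Nat.totient (v * q) := by
  rw [← card_red]
  have hn : (0 : ℤ) < ((v * q : ℕ) : ℤ) := by exact_mod_cast Nat.mul_pos hv hq
  refine card_le_card_of_injOn (fun a => (((v : ℤ) * a + u) % ((v * q : ℕ) : ℤ)).toNat) ?_ ?_
  · intro a ha
    simp only [II, coe_filter, mem_range, Set.mem_ofPred_eq] at ha
    have h0 : 0 ≤ ((v : ℤ) * a + u) % ((v * q : ℕ) : ℤ) := Int.emod_nonneg _ hn.ne'
    have h1 : ((v : ℤ) * a + u) % ((v * q : ℕ) : ℤ) < ((v * q : ℕ) : ℤ) := Int.emod_lt_of_pos _ hn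
    simp only [red, coe_filter, mem_range, Set.mem_ofPred_eq]
    refine ⟨by omega, ?_⟩
    have h2 : ((((v : ℤ) * a + u) % ((v * q : ℕ) : ℤ)).toNat : ℤ) =
        ((v : ℤ) * a + u) % ((v * q : ℕ) : ℤ) := Int.toNat_of_nonneg h0
    rw [← Nat.isCoprime_iff_coprime, h2]
    have h3 : Int.gcd ((v : ℤ) * a + u) v = 1 := by
      rw [show (v : ℤ) * a + u = u + a * v by ring, Int.gcd_add_mul_right_left]
      exact huv
    rw [← Int.isCoprime_iff_gcd_eq_one] at h3
    have h4 : IsCoprime ((v : ℤ) * a + u) ((v * q : ℕ) : ℤ) := by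
      push_cast
      exact h3.mul_right ((Int.isCoprime_iff_gcd_eq_one).2 ha.2)
    have h5 : ((v : ℤ) * a + u) % ((v * q : ℕ) : ℤ) = ((v : ℤ) * a + u) +
        ((v * q : ℕ) : ℤ) * (-(((v : ℤ) * a + u) / ((v * q : ℕ) : ℤ))) := by
      have := Int.emod_add_mul_ediv ((v : ℤ) * a + u) ((v * q : ℕ) : ℤ)
      linarith
    rw [h5]
    exact h4.add_mul_left_left _
  · intro a ha b hb hab
    simp only [II, coe_filter, mem_range, Set.mem_ofPred_eq] at ha hb
    have h0 : 0 ≤ ((v : ℤ) * a + u) % ((v * q : ℕ) : ℤ) := Int.emod_nonneg _ hn.ne'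
    have h0' : 0 ≤ ((v : ℤ) * b + u) % ((v * q : ℕ) : ℤ) := Int.emod_nonneg _ hn.ne'
    simp only at hab
    have h1 : ((v : ℤ) * a + u) % ((v * q : ℕ) : ℤ) = ((v : ℤ) * b + u) % ((v * q : ℕ) : ℤ) := by
      omega
    have h2 : ((v * q : ℕ) : ℤ) ∣ ((v : ℤ) * b + u) - ((v : ℤ) * a + u) :=
      Int.modEq_iff_dvd.1 h1
    have h3 : ((v : ℤ) * q) ∣ v * ((b : ℤ) - a) := by
      push_cast at h2
      have : ((v : ℤ) * b + u) - ((v : ℤ) * a + u) = v * ((b : ℤ) - a) := by ring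
      rwa [this] at h2
    have hv' : (v : ℤ) ≠ 0 := by exact_mod_cast hv.ne'
    have h4 : (q : ℤ) ∣ (b : ℤ) - a := Int.dvd_of_mul_dvd_mul_left hv' h3
    have h5 : (a : ℤ) ≡ b [ZMOD q] := (Int.modEq_iff_dvd).2 h4
    have h6 : a ≡ b [MOD q] := by exact_mod_cast h5
    unfold Nat.ModEq at h6
    rwa [Nat.mod_eq_of_lt ha.1, Nat.mod_eq_of_lt hb.1] at h6

/-- the reduced residues modulo `v q` which are congruent to `u` modulo `v` -/
theorem card_redu_ge (v : ℕ) (hv : 0 < v) (u : ℤ) (huv : Int.gcd u v = 1) (q : ℕ) (hq : 0 < q) :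
    Nat.totient q ≤ #(redu v u (v * q)) := by
  classical
  have hn : 0 < v * q := Nat.mul_pos hv hq
  have : NeZero (v * q) := ⟨hn.ne'⟩
  have : NeZero v := ⟨hv.ne'⟩
  have hdvd : v ∣ v * q := Dvd.intro q rfl
  have hco : IsCoprime u (v : ℤ) := Int.isCoprime_iff_gcd_eq_one.2 huv
  set f := ZMod.unitsMap hdvd with hf
  have hsurj : Function.Surjective f := ZMod.unitsMap_surjective hdvd
  -- the unit `u`
  obtain ⟨w, hw⟩ : ∃ w : (ZMod v)ˣ, (w : ZMod v) = (u : ZMod v) := by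
    obtain ⟨a, b, hab⟩ := hco
    have h1 : (u : ZMod v) * (a : ZMod v) = 1 := by
      have h2 : ((a * u + b * v : ℤ) : ZMod v) = ((1 : ℤ) : ZMod v) := by rw [hab]
      push_cast at h2
      rw [ZMod.natCast_self, mul_zero, add_zero] at h2
      rw [mul_comm]
      exact h2
    exact ⟨Units.mkOfMulEqOne _ _ h1, rfl⟩
  -- the fibre over `w`
  have hfib : ∀ y : (ZMod v)ˣ, #{g : (ZMod (v * q))ˣ | f g = y} = #{g : (ZMod (v * q))ˣ | f g = w} := by
    intro y
    obtain ⟨g₁, hg₁⟩ := hsurj y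
    obtain ⟨g₂, hg₂⟩ := hsurj w
    refine card_bij (fun g _ => g * g₁⁻¹ * g₂) ?_ ?_ ?_
    · intro g hg
      rw [mem_filter] at hg ⊢
      refine ⟨mem_univ _, ?_⟩
      rw [map_mul, map_mul, map_inv, hg.2, hg₁, hg₂]
      simp
    · intro g _ g' _ h
      simpa using h
    · intro g hg
      rw [mem_filter] at hg
      refine ⟨g * g₂⁻¹ * g₁, ?_, by simp⟩
      rw [mem_filter]
      refine ⟨mem_univ _, ?_⟩
      rw [map_mul, map_mul, map_inv, hg.2, hg₁, hg₂]
      simp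
  have hsum : Nat.totient (v * q) = Nat.totient v * #{g : (ZMod (v * q))ˣ | f g = w} := by
    have h1 : Fintype.card (ZMod (v * q))ˣ = ∑ y : (ZMod v)ˣ, #{g : (ZMod (v * q))ˣ | f g = y} := by
      rw [← card_univ]
      exact card_eq_sum_card_fiberwise (fun g _ => mem_univ (f g))
    rw [sum_congr rfl fun y _ => hfib y, sum_const, card_univ, ZMod.card_units_eq_totient,
      ZMod.card_units_eq_totient, smul_eq_mul] at h1
    exact h1
  have hle : Nat.totient q ≤ #{g : (ZMod (v * q))ˣ | f g = w} := by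
    have h1 := Nat.totient_super_multiplicative v q
    rw [hsum] at h1
    exact Nat.le_of_mul_le_mul_left h1 (Nat.totient_pos.2 hv)
  refine hle.trans ?_
  refine card_le_card_of_injOn (fun g => (g : ZMod (v * q)).val) ?_ ?_
  · intro g hg
    simp only [coe_filter, mem_univ, true_and, Set.mem_ofPred_eq] at hg
    simp only [redu, red, coe_filter, mem_filter, mem_range, Set.mem_ofPred_eq]
    refine ⟨⟨ZMod.val_lt _, ZMod.val_coe_unit_coprime g⟩, ?_⟩
    rw [← ZMod.intCast_eq_intCast_iff]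
    have h1 : ((f g : (ZMod v)ˣ) : ZMod v) = (u : ZMod v) := by rw [hg, hw]
    rw [← h1, hf, ZMod.unitsMap_val]
    rw [ZMod.cast_eq_val]
    push_cast
    rfl
  · intro g _ g' _ h
    exact Units.ext (ZMod.val_injective _ h)

end Pool.Agent.W2helper68.DSR
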