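import Mathlib
import Pool.Agent.X152.DS.Main
import Pool.Agent.W2helper68.DSR.Pair
import Pool.Agent.W2helper68.DSR.Res

set_option autoImplicit false

/-!
# The Duffin-Schaeffer theorem for rational shifts, with large residue sets
-/

namespace Pool.Agent.W2helper68.DSR

open Finset MeasureTheory Filter Pool.Agent.K7.H64.DS

/-- the distance to the nearest integer -/
noncomputable def nd (t : ℝ) : ℝ := |t - round t|

theorem nd_le (t : ℝ) (k : ℤ) : nd t ≤ |t - k| := round_le t k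

theorem measurable_nd : Measurable nd := by
  unfold nd
  have h : Measurable (fun t : ℝ => t - (round t : ℝ)) := by
    have h1 : (fun t : ℝ => (round t : ℝ)) = fun t : ℝ => ((⌊t + 1 / 2⌋ : ℤ) : ℝ) := by
      funext t
      rw [round_eq]
    have h2 : Measurable (fun t : ℝ => (round t : ℝ)) := by
      rw [h1]
      exact (measurable_from_top (f := fun z : ℤ => (z : ℝ))).comp
        (Int.measurable_floor.comp (measurable_id.add_const _))
    exact measurable_id.sub h2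
  exact continuous_abs.measurable.comp h

theorem not_summable_min (g : ℕ → ℝ) (hg : ∀ q, 0 ≤ g q) (h : ¬ Summable g) :
    ¬ Summable fun q => min 1 (g q) := by
  intro hs
  apply h
  have h1 := hs.tendsto_atTop_zero
  have h2 : ∀ᶠ q in atTop, min 1 (g q) < 1 := h1.eventually (gt_mem_nhds one_pos)
  rw [eventually_atTop] at h2
  obtain ⟨Q, hQ⟩ := h2
  rw [← summable_nat_add_iff Q] at hs ⊢
  refine hs.congr fun q => ?_
  have h3 := hQ (q + Q) (by omega)
  rcases le_total 1 (g (q + Q)) with h4 | h4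
  · rw [min_eq_left h4] at h3
    exact absurd h3 (lt_irrefl _)
  · exact min_eq_right h4

theorem tail_null_pos (v : ℕ) (hv : 0 < v) (u : ℤ) (huv : Int.gcd u v = 1) (ψ : ℕ → ℝ)
    (hψ : ∀ q, 0 ≤ ψ q) (hdiv : ¬ Summable fun q : ℕ => (Nat.totient (v * q) : ℝ) * ψ q / q)
    (Q0 : ℕ) : volume (Set.Ico (0 : ℝ) 1 \ {x : ℝ | ∃ q : ℕ, Q0 ≤ q ∧ 0 < ψ q ∧
      ∃ a ∈ II v u q, nd (x - ((a : ℝ) + (u : ℝ) / v) / q) ≤ ψ q / q}) = 0 := by
  classical
  have hv' : (0 : ℝ) < v := by exact_mod_cast hv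
  obtain ⟨C, hC0, hC⟩ := pairs_bound
  have hE : MeasurableSet {x : ℝ | ∃ q : ℕ, Q0 ≤ q ∧ 0 < ψ q ∧
      ∃ a ∈ II v u q, nd (x - ((a : ℝ) + (u : ℝ) / v) / q) ≤ ψ q / q} := by
    have h1 : {x : ℝ | ∃ q : ℕ, Q0 ≤ q ∧ 0 < ψ q ∧
        ∃ a ∈ II v u q, nd (x - ((a : ℝ) + (u : ℝ) / v) / q) ≤ ψ q / q} =
        ⋃ q : ℕ, ⋃ _ : Q0 ≤ q, ⋃ _ : 0 < ψ q, ⋃ a : ℕ, ⋃ _ : a ∈ II v u q,
          {x : ℝ | nd (x - ((a : ℝ) + (u : ℝ) / v) / q) ≤ ψ q / q} := by
      ext x
      simp only [Set.mem_ofPred_eq, Set.mem_iUnion, exists_prop]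
    rw [h1]
    refine MeasurableSet.iUnion fun q => MeasurableSet.iUnion fun _ => MeasurableSet.iUnion
      fun _ => MeasurableSet.iUnion fun a => MeasurableSet.iUnion fun _ => ?_
    exact measurableSet_le (measurable_nd.comp (measurable_id.sub_const _)) measurable_const
  refine Pool.Agent.X152.DS.engine _ hE (1 / (8 * v)) C (by positivity) hC0.le ?_
  intro N hN
  have hN' : (0 : ℝ) < N := by exact_mod_cast hN
  -- the sizes
  set g : ℕ → ℝ := fun q => (Nat.totient (v * q) : ℝ) * ψ q / q with hg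
  have hg0 : ∀ q, 0 ≤ g q := fun q => div_nonneg (mul_nonneg (by positivity) (hψ q)) (by positivity)
  have hdiv2 := not_summable_min g hg0 hdiv
  set K : ℕ := max Q0 ((432 * v * N) ^ 2) with hK
  obtain ⟨n, hn⟩ := Pool.Agent.X152.DS.exists_window (fun q => min 1 (g q))
    (fun q => le_min zero_le_one (hg0 q)) hdiv2 K
  set W : Finset ℕ := (Ico K n).filter fun q => 0 < ψ q with hW
  have hWm : ∀ q ∈ W, Q0 ≤ q ∧ (432 * v * N) ^ 2 ≤ q ∧ 0 < q ∧ 0 < ψ q := by
    intro q hq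
    rw [hW, mem_filter, mem_Ico] at hq
    have h1 : Q0 ≤ q := (le_max_left _ _).trans hq.1.1
    have h2 : (432 * v * N) ^ 2 ≤ q := (le_max_right _ _).trans hq.1.1
    exact ⟨h1, h2, lt_of_lt_of_le (by positivity) h2, hq.2⟩
  have hsumW : 1 ≤ ∑ q ∈ W, min 1 (g q) := by
    refine hn.trans (le_of_eq ?_)
    symm
    rw [hW]
    refine sum_filter_of_ne fun q _ hne => ?_
    by_contra h0
    have h1 : ψ q = 0 := le_antisymm (not_lt.1 h0) (hψ q)
    apply hne
    simp only [hg, h1, mul_zero, zero_div]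
    exact min_eq_right zero_le_one
  set S : Finset ℕ := W.image fun q => v * q with hS
  set θ : ℕ → ℝ := fun m => min 1 (g (m / v)) with hθ
  have hθq : ∀ q, θ (v * q) = min 1 (g q) := by
    intro q
    simp only [hθ]
    rw [Nat.mul_div_cancel_left _ hv]
  have hinj : Set.InjOn (fun q : ℕ => v * q) (W : Set ℕ) := by
    intro a _ b _ h
    exact Nat.eq_of_mul_eq_mul_left hv h
  have hsumS : ∑ m ∈ S, θ m = ∑ q ∈ W, min 1 (g q) := by
    rw [hS, sum_image hinj]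
    exact sum_congr rfl fun q _ => hθq q
  have hSm : ∀ m ∈ S, ∃ q ∈ W, m = v * q := by
    intro m hm
    rw [hS, mem_image] at hm
    obtain ⟨q, hq, h⟩ := hm
    exact ⟨q, hq, h.symm⟩
  have hS0 : ∀ m ∈ S, 0 < m := by
    intro m hm
    obtain ⟨q, hq, rfl⟩ := hSm m hm
    exact Nat.mul_pos hv (hWm q hq).2.2.1
  have hθ0 : ∀ m, 0 ≤ θ m := fun m => le_min zero_le_one (hg0 _)
  have hθ1 : ∀ m, θ m ≤ 1 := fun m => min_le_left _ _
  have hgpos : ∀ q ∈ W, 0 < g q := by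
    intro q hq
    obtain ⟨_, _, h3, h4⟩ := hWm q hq
    have h5 : (0 : ℝ) < Nat.totient (v * q) := by
      exact_mod_cast Nat.totient_pos.2 (Nat.mul_pos hv h3)
    have h6 : (0 : ℝ) < q := by exact_mod_cast h3
    exact div_pos (mul_pos h5 h4) h6
  have hθpos : ∀ m ∈ S, 0 < θ m := by
    intro m hm
    obtain ⟨q, hq, rfl⟩ := hSm m hm
    rw [hθq]
    exact lt_min one_pos (hgpos q hq)
  set M : ℝ := ∑ m ∈ S, θ m with hM
  have hM1 : 1 ≤ M := by rw [hsumS]; exact hsumW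
  refine ⟨(Σ _ : ℕ, ℕ), JJ v u S, fun j => (j.2 : ℝ) / j.1, fun j => rad θ j.1 / 2, M,
    by linarith, ?_, ?_, ?_⟩
  · rintro ⟨m, a⟩ hj
    rw [JJ, mem_sigma] at hj
    obtain ⟨hm, ha⟩ := hj
    simp only at hm ha ⊢
    obtain ⟨q, hq, rfl⟩ := hSm m hm
    obtain ⟨h1, h2, h3, h4⟩ := hWm q hq
    have hq' : (0 : ℝ) < q := by exact_mod_cast h3
    have hvq : 0 < v * q := Nat.mul_pos hv h3
    have hφ : (0 : ℝ) < Nat.totient (v * q) := by exact_mod_cast Nat.totient_pos.2 hvq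
    have hr0 := rad_nonneg θ hθ0 (v * q)
    refine ⟨by linarith, ?_, ?_⟩
    · -- the radius is small
      have h5 := two_pow_le (v * q) hvq
      have h6 : (1 : ℝ) ≤ 2 ^ (#(v * q).primeFactors) := one_le_pow₀ (by norm_num)
      have h7 : (432 * v * N : ℝ) ≤ Real.sqrt ((v * q : ℕ) : ℝ) := by
        apply Real.le_sqrt_of_sq_le
        have h8 : (432 * v * N) ^ 2 ≤ v * q := h2.trans (Nat.le_mul_of_pos_left q hv)
        exact_mod_cast h8
      have h9 : (432 * v * N : ℝ) ≤ 108 * Nat.totient (v * q) := by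
        have h10 : 0 ≤ Real.sqrt ((v * q : ℕ) : ℝ) := Real.sqrt_nonneg _
        nlinarith
      have h11 : (1 : ℝ) ≤ v := by exact_mod_cast hv
      have h12 : (N : ℝ) ≤ Nat.totient (v * q) := by nlinarith
      unfold rad
      rw [div_div, div_le_div_iff₀ (by positivity) hN']
      have h13 := hθ1 (v * q)
      have h14 := hθ0 (v * q)
      nlinarith
    · intro x hx
      rw [Set.mem_Ioo] at hx
      obtain ⟨hb, k, hk⟩ := bk_spec v hv u q h3 a ha
      refine ⟨q, h1, h4, bk v u q a, hb, ?_⟩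
      have hk' : (v : ℝ) * (bk v u q a : ℕ) + u = a + v * q * k := by exact_mod_cast hk
      have h5 : ((bk v u q a : ℕ) + (u : ℝ) / v) / q = (a : ℝ) / ((v * q : ℕ) : ℝ) + k := by
        push_cast
        field_simp
        linear_combination hk'
      refine (nd_le _ (-k)).trans ?_
      rw [h5]
      have h6 : |x - ((a : ℝ) / ((v * q : ℕ) : ℝ) + k) - ((-k : ℤ) : ℝ)| ≤ rad θ (v * q) / 2 := by
        push_cast at hx ⊢
        rw [abs_le]
        constructor <;> linarith [hx.1, hx.2]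
      refine h6.trans ?_
      have h7 : θ (v * q) ≤ g q := by rw [hθq]; exact min_le_right _ _
      unfold rad
      have h8 : g q = (Nat.totient (v * q) : ℝ) * (ψ q / q) := by
        simp only [hg]; ring
      rw [div_div, div_le_iff₀ (by positivity)]
      have h9 : 0 ≤ ψ q / q := div_nonneg (hψ q) hq'.le
      have h10 : 0 ≤ (Nat.totient (v * q) : ℝ) * (ψ q / q) := mul_nonneg hφ.le h9
      nlinarith
  · intro i hi
    have e1 : (JJ v u S).filter (fun j : (Σ _ : ℕ, ℕ) => (i : ℝ) / N ≤ (j.2 : ℝ) / j.1 ∧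
        (j.2 : ℝ) / j.1 < ((i : ℝ) + 1) / N) =
        S.sigma (fun m => (redu v u m).filter fun a : ℕ => (i : ℝ) / N ≤ (a : ℝ) / m ∧
          (a : ℝ) / m < ((i : ℝ) + 1) / N) := by
      ext ⟨m, a⟩
      simp only [JJ, mem_filter, mem_sigma]
      tauto
    rw [e1, sum_sigma]
    simp only [sum_const, nsmul_eq_mul]
    rw [hM, mul_div_assoc, sum_div, mul_sum]
    refine sum_le_sum fun m hm => ?_
    obtain ⟨q, hq, rfl⟩ := hSm m hm
    obtain ⟨_, h2, h3, _⟩ := hWm q hq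
    have hvq : 0 < v * q := Nat.mul_pos hv h3
    have hφ : (0 : ℝ) < Nat.totient (v * q) := by exact_mod_cast Nat.totient_pos.2 hvq
    have h5 := local_count v hv u huv N hN (v * q) (Dvd.intro q rfl)
      (h2.trans (Nat.le_mul_of_pos_left q hv)) i hi
    have hr0 := rad_nonneg θ hθ0 (v * q)
    refine le_trans (le_of_eq ?_) (mul_le_mul_of_nonneg_right h5 (by linarith))
    unfold rad
    field_simp
    ring
  · exact hC v u S hS0 θ hθ0 hθ1 hθpos hM1

theorem tail_null (v : ℕ) (hv : 0 < v) (u : ℤ) (huv : Int.gcd u v = 1) (ψ : ℕ → ℝ)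
    (hψ : ∀ q, 0 ≤ ψ q) (hdiv : ¬ Summable fun q : ℕ => (Nat.totient (v * q) : ℝ) * ψ q / q)
    (Q0 : ℕ) : volume (Set.Ico (0 : ℝ) 1 \ {x : ℝ | ∃ q : ℕ, Q0 ≤ q ∧
      ∃ a ∈ II v u q, nd (x - ((a : ℝ) + (u : ℝ) / v) / q) ≤ ψ q / q}) = 0 := by
  refine measure_mono_null ?_ (tail_null_pos v hv u huv ψ hψ hdiv Q0)
  refine Set.sdiff_subset_sdiff_right ?_
  rintro x ⟨q, h1, _, h2⟩
  exact ⟨q, h1, h2⟩

theorem full_measure (v : ℕ) (hv : 0 < v) (u : ℤ) (huv : Int.gcd u v = 1) (ψ : ℕ → ℝ)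
    (hψ : ∀ q, 0 ≤ ψ q) (hdiv : ¬ Summable fun q : ℕ => (Nat.totient (v * q) : ℝ) * ψ q / q) :
    volume {x : ℝ | x ∈ Set.Icc (0 : ℝ) 1 ∧ ∃ᶠ q : ℕ in atTop,
      ∃ a ∈ II v u q, nd (x - ((a : ℝ) + (u : ℝ) / v) / q) ≤ ψ q / q} = 1 :=
  Pool.Agent.X152.DS.limsup_of_tails _ fun Q0 => tail_null v hv u huv ψ hψ hdiv Q0

end Pool.Agent.W2helper68.DSR
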