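import Mathlib
import Pool.Agent.W2helper68.DSR.Fin

set_option autoImplicit false

/-!
# Generic shifts in the sense of measure
-/

namespace Pool.Agent.W2helper68.DSR

open Finset MeasureTheory Filter Topology

/-! ### Pairwise independent events -/

section

variable {Ω : Type} [MeasurableSpace Ω] (μ : Measure Ω) [IsProbabilityMeasure μ]

/-- the centred indicator -/
noncomputable def ci (A : Set Ω) (x : Ω) : ℝ := A.indicator (fun _ => (1 : ℝ)) x - μ.real A

theorem ci_mul (A B : Set Ω) (x : Ω) : ci μ A x * ci μ B x =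
    (A ∩ B).indicator (fun _ => (1 : ℝ)) x - μ.real B * A.indicator (fun _ => (1 : ℝ)) x -
      μ.real A * B.indicator (fun _ => (1 : ℝ)) x + μ.real A * μ.real B := by
  unfold ci
  by_cases h1 : x ∈ A <;> by_cases h2 : x ∈ B <;> simp [Set.indicator, h1, h2] <;> ring

theorem int_ind (A : Set Ω) (hA : MeasurableSet A) :
    ∫ x, A.indicator (fun _ => (1 : ℝ)) x ∂μ = μ.real A := by
  rw [integral_indicator_const _ hA, smul_eq_mul, mul_one]

theorem integrable_ind (A : Set Ω) (hA : MeasurableSet A) :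
    Integrable (fun x => A.indicator (fun _ => (1 : ℝ)) x) μ :=
  (integrable_const (1 : ℝ)).indicator hA

theorem integrable_ci_mul (A B : Set Ω) (hA : MeasurableSet A) (hB : MeasurableSet B) :
    Integrable (fun x => ci μ A x * ci μ B x) μ := by
  have h : (fun x => ci μ A x * ci μ B x) = fun x =>
      (A ∩ B).indicator (fun _ => (1 : ℝ)) x - μ.real B * A.indicator (fun _ => (1 : ℝ)) x -
        μ.real A * B.indicator (fun _ => (1 : ℝ)) x + μ.real A * μ.real B := by
    funext x
    exact ci_mul μ A B x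
  rw [h]
  exact (((integrable_ind μ _ (hA.inter hB)).sub ((integrable_ind μ _ hA).const_mul _)).sub
    ((integrable_ind μ _ hB).const_mul _)).add (integrable_const _)

theorem int_ci_mul (A B : Set Ω) (hA : MeasurableSet A) (hB : MeasurableSet B) :
    ∫ x, ci μ A x * ci μ B x ∂μ = μ.real (A ∩ B) - μ.real A * μ.real B := by
  have h : (fun x => ci μ A x * ci μ B x) = fun x =>
      (A ∩ B).indicator (fun _ => (1 : ℝ)) x - μ.real B * A.indicator (fun _ => (1 : ℝ)) x -
        μ.real A * B.indicator (fun _ => (1 : ℝ)) x + μ.real A * μ.real B := by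
    funext x
    exact ci_mul μ A B x
  have i1 := integrable_ind μ _ (hA.inter hB)
  have i2 := (integrable_ind μ _ hA).const_mul (μ.real B)
  have i3 := (integrable_ind μ _ hB).const_mul (μ.real A)
  have e1 := integral_add ((i1.sub i2).sub i3) (integrable_const (μ := μ) (μ.real A * μ.real B))
  have e2 := integral_sub (i1.sub i2) i3
  have e3 := integral_sub i1 i2
  simp only [Pi.sub_apply] at e1 e2 e3
  rw [h, e1, e2, e3, integral_const_mul, integral_const_mul, int_ind μ _ (hA.inter hB),
    int_ind μ _ hA, int_ind μ _ hB, integral_const]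
  simp
  ring

theorem tail_inter_null (A : ℕ → Set Ω) (hA : ∀ q, MeasurableSet (A q))
    (hind : ∀ q r, q ≠ r → μ.real (A q ∩ A r) = μ.real (A q) * μ.real (A r))
    (hdiv : ¬ Summable fun q => μ.real (A q)) (Q0 : ℕ) :
    μ {x | ∀ q, Q0 ≤ q → x ∉ A q} = 0 := by
  classical
  set X : Set Ω := {x | ∀ q, Q0 ≤ q → x ∉ A q} with hX
  have hXm : MeasurableSet X := by
    have : X = ⋂ q : ℕ, ⋂ _ : Q0 ≤ q, (A q)ᶜ := by
      ext x
      simp [hX]
    rw [this]
    exact MeasurableSet.iInter fun q => MeasurableSet.iInter fun _ => (hA q).compl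
  have key : ∀ n, (μ.real X) * (∑ q ∈ Ico Q0 n, μ.real (A q)) ^ 2 ≤
      ∑ q ∈ Ico Q0 n, μ.real (A q) := by
    intro n
    set Ψ := ∑ q ∈ Ico Q0 n, μ.real (A q) with hΨ
    have hsq : ∀ x, (∑ q ∈ Ico Q0 n, ci μ (A q) x) ^ 2 =
        ∑ q ∈ Ico Q0 n, ∑ r ∈ Ico Q0 n, ci μ (A q) x * ci μ (A r) x := by
      intro x
      rw [sq, sum_mul_sum]
    have hint : Integrable (fun x => (∑ q ∈ Ico Q0 n, ci μ (A q) x) ^ 2) μ := by
      simp only [hsq]
      exact integrable_finsetSum _ fun q _ => integrable_finsetSum _ fun r _ =>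
        integrable_ci_mul μ _ _ (hA q) (hA r)
    have h1 : ∫ x, (∑ q ∈ Ico Q0 n, ci μ (A q) x) ^ 2 ∂μ ≤ Ψ := by
      simp only [hsq]
      rw [integral_finsetSum _ fun q _ => integrable_finsetSum _ fun r _ =>
        integrable_ci_mul μ _ _ (hA q) (hA r)]
      refine sum_le_sum fun q hq => ?_
      rw [integral_finsetSum _ fun r _ => integrable_ci_mul μ _ _ (hA q) (hA r)]
      rw [sum_congr rfl fun r _ => int_ci_mul μ (A q) (A r) (hA q) (hA r)]
      rw [← add_sum_erase _ _ hq, Set.inter_self]
      have h2 : ∑ r ∈ (Ico Q0 n).erase q, (μ.real (A q ∩ A r) - μ.real (A q) * μ.real (A r)) = 0 := by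
        refine sum_eq_zero fun r hr => ?_
        rw [hind q r (ne_of_mem_erase hr).symm, sub_self]
      rw [h2]
      nlinarith [measureReal_nonneg (μ := μ) (s := A q)]
    have h3 : ∫ x, X.indicator (fun _ => Ψ ^ 2) x ∂μ ≤
        ∫ x, (∑ q ∈ Ico Q0 n, ci μ (A q) x) ^ 2 ∂μ := by
      refine integral_mono ((integrable_const _).indicator hXm) hint fun x => ?_
      simp only
      by_cases hx : x ∈ X
      · rw [Set.indicator_of_mem hx]
        have h4 : ∑ q ∈ Ico Q0 n, ci μ (A q) x = -Ψ := by
          rw [hΨ, ← sum_neg_distrib]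
          refine sum_congr rfl fun q hq => ?_
          unfold ci
          rw [Set.indicator_of_notMem (hx q (mem_Ico.1 hq).1)]
          ring
        rw [h4]
        ring_nf
        exact le_rfl
      · rw [Set.indicator_of_notMem hx]
        positivity
    rw [integral_indicator_const _ hXm, smul_eq_mul] at h3
    exact h3.trans h1
  have htend := (not_summable_iff_tendsto_nat_atTop_of_nonneg
    (fun q => measureReal_nonneg (μ := μ) (s := A q))).1 hdiv
  have h0 : μ.real X = 0 := by
    by_contra hne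
    have hpos : 0 < μ.real X := lt_of_le_of_ne measureReal_nonneg (Ne.symm hne)
    obtain ⟨n, hn, hQn⟩ := ((htend.eventually_ge_atTop
      (1 + 1 / μ.real X + ∑ q ∈ range Q0, μ.real (A q))).and (eventually_ge_atTop Q0)).exists
    have h5 := sum_range_add_sum_Ico (fun q => μ.real (A q)) hQn
    have h6 := key n
    set Ψ := ∑ q ∈ Ico Q0 n, μ.real (A q) with hΨ
    have h7 : 1 + 1 / μ.real X ≤ Ψ := by linarith
    have h8 : 0 < 1 / μ.real X := by positivity
    have h9 : μ.real X * Ψ ≤ 1 := by
      have : 0 < Ψ := by linarith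
      nlinarith
    have h10 : μ.real X * (1 + 1 / μ.real X) ≤ μ.real X * Ψ :=
      mul_le_mul_of_nonneg_left h7 hpos.le
    rw [mul_add, mul_one_div_cancel hpos.ne'] at h10
    linarith
  exact (measureReal_eq_zero_iff).1 h0

end

/-! ### The circle -/

instance : IsProbabilityMeasure (volume : Measure UnitAddCircle) :=
  ⟨by rw [UnitAddCircle.measure_univ]⟩

theorem mp_pair (q r : ℤ) (h : q ≠ r) : MeasurePreserving
    (fun p : UnitAddCircle × UnitAddCircle => (q • p.2 - p.1, r • p.2 - p.1))
    (volume.prod volume) (volume.prod volume) := by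
  have h1 : MeasurePreserving (fun p : UnitAddCircle × UnitAddCircle => (p.1, q • p.1 - p.2))
      (volume.prod volume) (volume.prod volume) := by
    refine MeasurePreserving.skew_product (g := fun x y => q • x - y) (MeasurePreserving.id _) ?_ ?_
    · exact (by fun_prop : Measurable fun p : UnitAddCircle × UnitAddCircle => q • p.1 - p.2)
    · exact Eventually.of_forall fun x => (Measure.measurePreserving_sub_left volume (q • x)).map_eq
  have h3 : MeasurePreserving (fun p : UnitAddCircle × UnitAddCircle =>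
      (p.1, (r - q) • p.2 + p.1)) (volume.prod volume) (volume.prod volume) := by
    refine MeasurePreserving.skew_product (g := fun x y => (r - q) • y + x)
      (MeasurePreserving.id _) ?_ ?_
    · exact (by fun_prop : Measurable fun p : UnitAddCircle × UnitAddCircle =>
        (r - q) • p.2 + p.1)
    · refine Eventually.of_forall fun x => ?_
      have h4 := (measurePreserving_add_right (volume : Measure UnitAddCircle) x).comp
        (Measure.measurePreserving_zsmul (volume : Measure UnitAddCircle) (sub_ne_zero.2 h.symm))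
      exact h4.map_eq
  have h5 := h3.comp ((Measure.measurePreserving_swap (μ := (volume : Measure UnitAddCircle))
    (ν := (volume : Measure UnitAddCircle))).comp (h1.comp
      (Measure.measurePreserving_swap (μ := (volume : Measure UnitAddCircle))
        (ν := (volume : Measure UnitAddCircle)))))
  have h6 : (fun p : UnitAddCircle × UnitAddCircle => (q • p.2 - p.1, r • p.2 - p.1)) =
      (fun p : UnitAddCircle × UnitAddCircle => (p.1, (r - q) • p.2 + p.1)) ∘ (Prod.swap ∘
        ((fun p : UnitAddCircle × UnitAddCircle => (p.1, q • p.1 - p.2)) ∘ Prod.swap)) := by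
    funext p
    simp only [Function.comp, Prod.swap, Prod.mk.injEq, true_and]
    rw [sub_smul]
    abel
  rw [h6]
  exact h5

/-- the event that `q x` is close to `γ`, for pairs `(γ, x)` -/
def ev (ρ : ℝ) (q : ℤ) : Set (UnitAddCircle × UnitAddCircle) := {p | ‖q • p.2 - p.1‖ ≤ ρ}

theorem meas_ev (ρ : ℝ) (q : ℤ) : MeasurableSet (ev ρ q) :=
  measurableSet_le (by fun_prop) measurable_const

theorem real_ev (ρ : ℝ) (q : ℤ) : (volume.prod volume : Measure (UnitAddCircle × UnitAddCircle)).real
    (ev ρ q) = (volume : Measure UnitAddCircle).real (Metric.closedBall 0 ρ) := by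
  have h := (mp_pair q (q + 1) (by omega)).measureReal_preimage
    (s := (Metric.closedBall (0 : UnitAddCircle) ρ) ×ˢ Set.univ)
    (Metric.isClosed_closedBall.measurableSet.prod MeasurableSet.univ).nullMeasurableSet
  rw [measureReal_prod_prod] at h
  rw [probReal_univ, mul_one] at h
  rw [← h]
  congr 1
  ext p
  simp [ev]

theorem real_ev_inter (ρ ρ' : ℝ) (q r : ℤ) (hqr : q ≠ r) :
    (volume.prod volume : Measure (UnitAddCircle × UnitAddCircle)).real (ev ρ q ∩ ev ρ' r) =
      (volume.prod volume : Measure (UnitAddCircle × UnitAddCircle)).real (ev ρ q) *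
      (volume.prod volume : Measure (UnitAddCircle × UnitAddCircle)).real (ev ρ' r) := by
  rw [real_ev, real_ev]
  have h := (mp_pair q r hqr).measureReal_preimage
    (s := (Metric.closedBall (0 : UnitAddCircle) ρ) ×ˢ (Metric.closedBall (0 : UnitAddCircle) ρ'))
    (Metric.isClosed_closedBall.measurableSet.prod
      Metric.isClosed_closedBall.measurableSet).nullMeasurableSet
  rw [measureReal_prod_prod] at h
  rw [← h]
  congr 1
  ext p
  simp [ev]

theorem ae_real_of_ae_circle (P : UnitAddCircle → Prop)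
    (h : ∀ᵐ γ ∂(volume : Measure UnitAddCircle), P γ) :
    ∀ᵐ γ : ℝ, P (γ : UnitAddCircle) := by
  have h1 : ∀ n : ℤ, ∀ᵐ (γ : ℝ) ∂((volume : Measure ℝ).restrict (Set.Ioc (n : ℝ) (n + 1))),
      P (γ : UnitAddCircle) := fun n =>
    (UnitAddCircle.measurePreserving_mk (n : ℝ)).quasiMeasurePreserving.ae h
  have h2 := (ae_restrict_iUnion_iff (fun n : ℤ => Set.Ioc (n : ℝ) (n + 1))
    (fun γ : ℝ => P (γ : UnitAddCircle))).2 h1
  rw [iUnion_Ioc_intCast, Measure.restrict_univ] at h2
  exact h2

/-- the doubly metric theorem, for all residues -/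
theorem ae_good (ψ : ℕ → ℝ) (hψ : ∀ q, 0 ≤ ψ q) (hdiv : ¬ Summable ψ) :
    ∀ᵐ γ : ℝ, ∀ Q0 : ℕ, volume (Set.Ico (0 : ℝ) 1 \ {x : ℝ | ∃ q : ℕ, Q0 ≤ q ∧
        ∃ a ∈ range q, nd (x - ((a : ℝ) + γ) / q) ≤ ψ q / q}) = 0 := by
  classical
  set ρ : ℕ → ℝ := fun q => min (1 / 2) (ψ q) with hρ
  have hρ0 : ∀ q, 0 ≤ ρ q := fun q => le_min (by norm_num) (hψ q)
  set A : ℕ → Set (UnitAddCircle × UnitAddCircle) := fun q => ev (ρ q) (q : ℤ) with hA
  have hreal : ∀ q, (volume.prod volume : Measure (UnitAddCircle × UnitAddCircle)).real (A q) =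
      min 1 (2 * ψ q) := by
    intro q
    rw [hA]
    simp only
    rw [real_ev, measureReal_def, AddCircle.volume_closedBall,
      ENNReal.toReal_ofReal (le_min (by norm_num) (by have := hρ0 q; linarith))]
    simp only [hρ]
    rcases le_total (1 / 2) (ψ q) with h | h
    · rw [min_eq_left h, min_eq_left (by linarith : (1 : ℝ) ≤ 2 * ψ q)]
      norm_num
    · rw [min_eq_right h, min_eq_right (by linarith : 2 * ψ q ≤ (1 : ℝ))]
  have hdiv2 : ¬ Summable fun q =>
      (volume.prod volume : Measure (UnitAddCircle × UnitAddCircle)).real (A q) := by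
    simp only [hreal]
    apply not_summable_min
    · intro q
      have := hψ q
      linarith
    · intro h
      apply hdiv
      have h2 := h.mul_left (1 / 2)
      refine h2.congr fun q => ?_
      ring
  have hnull : ∀ Q0, ∀ᵐ p ∂(volume.prod volume : Measure (UnitAddCircle × UnitAddCircle)),
      ∃ q, Q0 ≤ q ∧ p ∈ A q := by
    intro Q0
    have h := tail_inter_null (volume.prod volume : Measure (UnitAddCircle × UnitAddCircle)) A
      (fun q => meas_ev _ _) (fun q r hqr => real_ev_inter _ _ _ _ (by exact_mod_cast hqr)) hdiv2 Q0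
    rw [ae_iff]
    refine measure_mono_null ?_ h
    intro p hp
    simp only [Set.mem_ofPred_eq, not_exists, not_and] at hp ⊢
    exact hp
  have hcirc : ∀ᵐ γ ∂(volume : Measure UnitAddCircle), ∀ Q0 : ℕ,
      ∀ᵐ x ∂(volume : Measure UnitAddCircle), ∃ q : ℕ, Q0 ≤ q ∧
      ‖(q : ℤ) • x - γ‖ ≤ ρ q := by
    rw [ae_all_iff]
    exact fun Q0 => Measure.ae_ae_of_ae_prod (hnull Q0)
  have hr := ae_real_of_ae_circle _ hcirc
  filter_upwards [hr] with γ hγ Q0
  have hx := ae_real_of_ae_circle _ (hγ (max Q0 1))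
  rw [ae_iff] at hx
  refine measure_mono_null ?_ hx
  rintro x ⟨_, hx2⟩
  simp only [Set.mem_ofPred_eq]
  rintro ⟨q, hq, hle⟩
  apply hx2
  have hq1 : Q0 ≤ q := (le_max_left _ _).trans hq
  have hq2 : 1 ≤ q := (le_max_right _ _).trans hq
  have hq' : (0 : ℝ) < q := by exact_mod_cast hq2
  refine ⟨q, hq1, ?_⟩
  have h1 : ‖((((q : ℝ) * x - γ : ℝ)) : UnitAddCircle)‖ ≤ ρ q := by
    have h2 : ((((q : ℝ) * x - γ : ℝ)) : UnitAddCircle) = (q : ℤ) • (x : UnitAddCircle) - γ := by
      rw [AddCircle.coe_sub, ← AddCircle.coe_zsmul]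
      simp
    rw [h2]
    exact hle
  rw [UnitAddCircle.norm_eq] at h1
  set m : ℤ := round ((q : ℝ) * x - γ) with hm
  have hqZ : (0 : ℤ) < q := by exact_mod_cast hq2
  have h0 : 0 ≤ m % q := Int.emod_nonneg _ hqZ.ne'
  have h3 : m % q < q := Int.emod_lt_of_pos _ hqZ
  refine ⟨(m % q).toNat, ?_, ?_⟩
  · rw [mem_range]
    omega
  · have h4 : (((m % q).toNat : ℕ) : ℝ) = (m : ℝ) - q * (m / q : ℤ) := by
      have h5 : (((m % q).toNat : ℕ) : ℤ) = m - q * (m / q) := by
        rw [Int.toNat_of_nonneg h0]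
        have := Int.emod_add_mul_ediv m q
        linarith
      exact_mod_cast h5
    rw [h4]
    refine (nd_le _ (m / q : ℤ)).trans ?_
    have h6 : x - ((m : ℝ) - q * ((m / q : ℤ) : ℝ) + γ) / q - ((m / q : ℤ) : ℝ) =
        ((q : ℝ) * x - γ - m) / q := by
      field_simp
      ring
    rw [h6, abs_div, abs_of_pos hq']
    have h7 : |(q : ℝ) * x - γ - m| ≤ ψ q := h1.trans (min_le_right _ _)
    gcongr

end Pool.Agent.W2helper68.DSR
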