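import Mathlib
import Pool.Agent.W2helper68.DSR.Fin

set_option autoImplicit false

/-!
# Generic shifts in the sense of category
-/

namespace Pool.Agent.W2helper68.DSR

open Finset MeasureTheory Filter Topology

theorem nd_sub_le (s t : ℝ) : nd t ≤ nd s + |t - s| := by
  refine (nd_le t (round s)).trans ?_
  have h : t - (round s : ℝ) = (s - round s) + (t - s) := by ring
  rw [h]
  exact abs_add_le _ _

/-- the points which are close to the shifted fractions with denominators in `[Q, n)` -/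
def win (γ : ℝ) (ψ : ℕ → ℝ) (I : ℕ → Finset ℕ) (Q n : ℕ) : Set ℝ :=
  {x | ∃ q : ℕ, Q ≤ q ∧ q < n ∧ 0 < ψ q ∧ ∃ a ∈ I q, nd (x - ((a : ℝ) + γ) / q) ≤ ψ q / q}

theorem meas_win (γ : ℝ) (ψ : ℕ → ℝ) (I : ℕ → Finset ℕ) (Q n : ℕ) :
    MeasurableSet (win γ ψ I Q n) := by
  have h1 : win γ ψ I Q n = ⋃ q : ℕ, ⋃ _ : Q ≤ q, ⋃ _ : q < n, ⋃ _ : 0 < ψ q,
      ⋃ a : ℕ, ⋃ _ : a ∈ I q, {x : ℝ | nd (x - ((a : ℝ) + γ) / q) ≤ ψ q / q} := by
    ext x
    simp only [win, Set.mem_ofPred_eq, Set.mem_iUnion, exists_prop]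
  rw [h1]
  refine MeasurableSet.iUnion fun q => MeasurableSet.iUnion fun _ => MeasurableSet.iUnion
    fun _ => MeasurableSet.iUnion fun _ => MeasurableSet.iUnion fun a =>
      MeasurableSet.iUnion fun _ => ?_
  exact measurableSet_le (measurable_nd.comp (measurable_id.sub_const _)) measurable_const

theorem win_mono (γ : ℝ) (ψ : ℕ → ℝ) (I : ℕ → Finset ℕ) (Q : ℕ) {n m : ℕ} (h : n ≤ m) :
    win γ ψ I Q n ⊆ win γ ψ I Q m := by
  rintro x ⟨q, h1, h2, h3⟩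
  exact ⟨q, h1, by omega, h3⟩

/-- the residues for a rational shift -/
def RR (γ : ℚ) (q : ℕ) : Finset ℕ := II γ.den γ.num q

theorem gcd_num_den (γ : ℚ) : Int.gcd γ.num γ.den = 1 := by
  have := γ.reduced
  rwa [Int.gcd_def, Int.natAbs_natCast]

theorem totient_le_den (γ : ℚ) (q : ℕ) (hq : 0 < q) :
    Nat.totient q ≤ Nat.totient (γ.den * q) :=
  Nat.le_of_dvd (Nat.totient_pos.2 (Nat.mul_pos γ.den_pos hq))
    (Nat.totient_dvd_of_dvd (Dvd.intro_left γ.den rfl))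

theorem card_RR (γ : ℚ) (q : ℕ) (hq : 0 < q) : Nat.totient q ≤ (RR γ q).card :=
  (card_redu_ge γ.den γ.den_pos γ.num (gcd_num_den γ) q hq).trans
    (card_redu_le γ.den γ.den_pos γ.num q hq)

theorem not_summable_den (γ : ℚ) (ψ : ℕ → ℝ) (hψ : ∀ q, 0 ≤ ψ q)
    (hdiv : ¬ Summable fun q : ℕ => (Nat.totient q : ℝ) * ψ q / q) :
    ¬ Summable fun q : ℕ => (Nat.totient (γ.den * q) : ℝ) * ψ q / q := by
  intro h
  apply hdiv
  refine Summable.of_nonneg_of_le (fun q => ?_) (fun q => ?_) h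
  · exact div_nonneg (mul_nonneg (Nat.cast_nonneg _) (hψ q)) (Nat.cast_nonneg _)
  · rcases Nat.eq_zero_or_pos q with h0 | h0
    · subst h0
      simp
    · have h2 : (Nat.totient q : ℝ) ≤ Nat.totient (γ.den * q) := by
        exact_mod_cast totient_le_den γ q h0
      have h3 : (0 : ℝ) < q := by exact_mod_cast h0
      have h4 := hψ q
      gcongr

/-- for a rational shift finitely many denominators suffice up to `ε` -/
theorem exists_win (γ : ℚ) (ψ : ℕ → ℝ) (hψ : ∀ q, 0 ≤ ψ q)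
    (hdiv : ¬ Summable fun q : ℕ => (Nat.totient q : ℝ) * ψ q / q) (Q : ℕ) (ε : ENNReal)
    (hε : 0 < ε) : ∃ n : ℕ, Q < n ∧
      volume (Set.Ico (0 : ℝ) 1 \ win (γ : ℝ) (fun q => ψ q / 2) (RR γ) Q n) < ε := by
  have hψ2 : ∀ q, 0 ≤ (fun q => ψ q / 2) q := fun q => by
    have := hψ q
    simp only
    linarith
  have hdiv2 : ¬ Summable fun q : ℕ => (Nat.totient (γ.den * q) : ℝ) * (fun q => ψ q / 2) q / q := by
    intro h
    apply not_summable_den γ ψ hψ hdiv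
    have h2 := h.mul_left 2
    refine h2.congr fun q => ?_
    simp only
    ring
  have h0 := tail_null_pos γ.den γ.den_pos γ.num (gcd_num_den γ) (fun q => ψ q / 2) hψ2 hdiv2 Q
  have hcast : (γ.num : ℝ) / γ.den = (γ : ℝ) := (Rat.cast_def γ).symm
  rw [hcast] at h0
  set F : ℕ → Set ℝ := fun n => Set.Ico (0 : ℝ) 1 \ win (γ : ℝ) (fun q => ψ q / 2) (RR γ) Q n
    with hF
  have hanti : Antitone F := fun n m h => Set.sdiff_subset_sdiff_right (win_mono _ _ _ _ h)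
  have hlim : Tendsto (fun n => volume (F n)) atTop (𝓝 (volume (⋂ n, F n))) := by
    refine tendsto_measure_iInter_atTop (fun n => (measurableSet_Ico.diff
      (meas_win _ _ _ _ _)).nullMeasurableSet) hanti ⟨0, ?_⟩
    exact ne_top_of_le_ne_top (by simp) (measure_mono (Set.sdiff_subset (s := Set.Ico (0 : ℝ) 1)))
  have hzero : volume (⋂ n, F n) = 0 := by
    refine measure_mono_null ?_ h0
    intro x hx
    rw [Set.mem_iInter] at hx
    refine ⟨(hx 0).1, ?_⟩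
    rintro ⟨q, h1, h2, h3⟩
    exact (hx (q + 1)).2 ⟨q, h1, by omega, h2, h3⟩
  rw [hzero] at hlim
  obtain ⟨n, hn, hQn⟩ := ((hlim.eventually (gt_mem_nhds hε)).and (eventually_gt_atTop Q)).exists
  exact ⟨n, hQn, hn⟩

/-- the shifts near a rational number for which the window `[k, n)` works -/
def Ok (ψ : ℕ → ℝ) (k : ℕ) : Set ℝ :=
  {γ | ∃ (γ₀ : ℚ) (n : ℕ), k < n ∧
    volume (Set.Ico (0 : ℝ) 1 \ win (γ₀ : ℝ) (fun q => ψ q / 2) (RR γ₀) k n) <
      ENNReal.ofReal (1 / ((k : ℝ) + 1)) ∧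
    ∀ q, k ≤ q → q < n → 0 < ψ q → |γ - γ₀| < ψ q / 2}

theorem isOpen_Ok (ψ : ℕ → ℝ) (k : ℕ) : IsOpen (Ok ψ k) := by
  have h1 : Ok ψ k = ⋃ γ₀ : ℚ, ⋃ n : ℕ, ⋃ _ : (k < n ∧
      volume (Set.Ico (0 : ℝ) 1 \ win (γ₀ : ℝ) (fun q => ψ q / 2) (RR γ₀) k n) <
      ENNReal.ofReal (1 / ((k : ℝ) + 1))), ⋂ q ∈ (Finset.Ico k n).filter (fun q => 0 < ψ q),
        {γ : ℝ | |γ - γ₀| < ψ q / 2} := by
    ext γ
    simp only [Ok, Set.mem_ofPred_eq, Set.mem_iUnion, Set.mem_iInter, mem_filter, mem_Ico,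
      exists_prop]
    constructor
    · rintro ⟨γ₀, n, h1, h2, h3⟩
      exact ⟨γ₀, n, ⟨h1, h2⟩, fun q hq => h3 q hq.1.1 hq.1.2 hq.2⟩
    · rintro ⟨γ₀, n, ⟨h1, h2⟩, h3⟩
      exact ⟨γ₀, n, h1, h2, fun q a b c => h3 q ⟨⟨a, b⟩, c⟩⟩
  rw [h1]
  refine isOpen_iUnion fun γ₀ => isOpen_iUnion fun n => isOpen_iUnion fun _ => ?_
  refine isOpen_biInter_finset fun q _ => ?_
  exact isOpen_lt (by fun_prop) continuous_const

theorem dense_Ok (ψ : ℕ → ℝ) (hψ : ∀ q, 0 ≤ ψ q)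
    (hdiv : ¬ Summable fun q : ℕ => (Nat.totient q : ℝ) * ψ q / q) (k : ℕ) : Dense (Ok ψ k) := by
  refine (Rat.denseRange_cast (𝕜 := ℝ)).mono ?_
  rintro _ ⟨γ₀, rfl⟩
  obtain ⟨n, h1, h2⟩ := exists_win γ₀ ψ hψ hdiv k (ENNReal.ofReal (1 / ((k : ℝ) + 1)))
    (ENNReal.ofReal_pos.2 (by positivity))
  refine ⟨γ₀, n, h1, h2, fun q _ _ hq => ?_⟩
  rw [sub_self, abs_zero]
  linarith

/-- the windows for a generic shift -/
theorem generic (ψ : ℕ → ℝ) (γ : ℝ) (hγ : ∀ k, γ ∈ Ok ψ k) :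
    ∃ I : ℕ → Finset ℕ, (∀ q, I q ⊆ range q) ∧ (∀ q, 1 ≤ q → Nat.totient q ≤ (I q).card) ∧
      ∀ Q0 : ℕ, volume (Set.Ico (0 : ℝ) 1 \ {x : ℝ | ∃ q : ℕ, Q0 ≤ q ∧
        ∃ a ∈ I q, nd (x - ((a : ℝ) + γ) / q) ≤ ψ q / q}) = 0 := by
  classical
  choose γ₀ n hn1 hn2 hn3 using hγ
  -- the beginnings of the windows
  let K : ℕ → ℕ := fun j => Nat.rec 0 (fun _ k => n k) j
  have hK0 : K 0 = 0 := rfl
  have hKs : ∀ j, K (j + 1) = n (K j) := fun j => rfl
  have hKlt : ∀ j, K j < K (j + 1) := fun j => by rw [hKs]; exact hn1 _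
  have hKmono : StrictMono K := strictMono_nat_of_lt_succ hKlt
  have hKge : ∀ j, j ≤ K j := fun j => hKmono.id_le j
  have hex : ∀ q, ∃ j, q < K (j + 1) := fun q => ⟨q, by have := hKge (q + 1); omega⟩
  let J : ℕ → ℕ := fun q => Nat.find (hex q)
  have hJ : ∀ j q, K j ≤ q → q < K (j + 1) → J q = j := by
    intro j q h1 h2
    rw [Nat.find_eq_iff]
    refine ⟨h2, fun i hi => ?_⟩
    have h3 : i + 1 ≤ j := hi
    have : K (i + 1) ≤ K j := hKmono.monotone h3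
    omega
  refine ⟨fun q => RR (γ₀ (K (J q))) q, fun q => filter_subset _ _,
    fun q hq => card_RR _ q hq, ?_⟩
  intro Q0
  -- every late window gives a bound
  have hb : ∀ j, Q0 ≤ j → volume (Set.Ico (0 : ℝ) 1 \ {x : ℝ | ∃ q : ℕ, Q0 ≤ q ∧
      ∃ a ∈ RR (γ₀ (K (J q))) q, nd (x - ((a : ℝ) + γ) / q) ≤ ψ q / q}) ≤
      ENNReal.ofReal (1 / ((j : ℝ) + 1)) := by
    intro j hj
    have h1 := (hn2 (K j)).le
    refine (measure_mono ?_).trans (h1.trans ?_)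
    · refine Set.sdiff_subset_sdiff_right ?_
      rintro x ⟨q, a1, a2, a3, a, ha, a4⟩
      have hJq : J q = j := hJ j q a1 (by rw [hKs]; exact a2)
      refine ⟨q, ?_, a, ?_, ?_⟩
      · exact (hj.trans (hKge j)).trans a1
      · rw [hJq]; exact ha
      · have hq3 : 0 < ψ q := by
          simp only at a3
          linarith
        have h3 := hn3 (K j) q a1 a2 hq3
        have hq0 : 0 < q := by
          rcases Nat.eq_zero_or_pos q with h0 | h0
          · subst h0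
            have : a ∈ range 0 := filter_subset _ _ ha
            simp at this
          · exact h0
        have hq' : (0 : ℝ) < q := by exact_mod_cast hq0
        have h4 := nd_sub_le (x - ((a : ℝ) + (γ₀ (K j) : ℝ)) / q) (x - ((a : ℝ) + γ) / q)
        have h5 : x - ((a : ℝ) + γ) / q - (x - ((a : ℝ) + (γ₀ (K j) : ℝ)) / q) =
            -((γ - γ₀ (K j)) / q) := by
          field_simp
          ring
        rw [h5, abs_neg, abs_div, abs_of_pos hq'] at h4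
        have h6 : |γ - (γ₀ (K j) : ℝ)| / q ≤ (ψ q / 2) / q := by gcongr
        have h7 : ψ q / q = (ψ q / 2) / q + (ψ q / 2) / q := by ring
        simp only at a4
        rw [h7]
        linarith
    · apply ENNReal.ofReal_le_ofReal
      have h3 := hKge j
      generalize K j = m at h3
      have h5 : (j : ℝ) ≤ (m : ℝ) := Nat.cast_le.2 h3
      have h4 : (0 : ℝ) ≤ j := Nat.cast_nonneg _
      gcongr
  have hlim : Tendsto (fun j : ℕ => ENNReal.ofReal (1 / ((j : ℝ) + 1))) atTop (𝓝 0) := by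
    have := ENNReal.tendsto_ofReal (tendsto_one_div_add_atTop_nhds_zero_nat (𝕜 := ℝ))
    rwa [ENNReal.ofReal_zero] at this
  refine le_antisymm (ge_of_tendsto hlim ?_) bot_le
  filter_upwards [eventually_ge_atTop Q0] with j hj using hb j hj

/-- the shifts for which suitable sets of residues exist form a residual set -/
theorem residual_good (ψ : ℕ → ℝ) (hψ : ∀ q, 0 ≤ ψ q)
    (hdiv : ¬ Summable fun q : ℕ => (Nat.totient q : ℝ) * ψ q / q) :
    ∀ᶠ γ in residual ℝ, ∃ I : ℕ → Finset ℕ, (∀ q, I q ⊆ range q) ∧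
      (∀ q, 1 ≤ q → Nat.totient q ≤ (I q).card) ∧
      ∀ Q0 : ℕ, volume (Set.Ico (0 : ℝ) 1 \ {x : ℝ | ∃ q : ℕ, Q0 ≤ q ∧
        ∃ a ∈ I q, nd (x - ((a : ℝ) + γ) / q) ≤ ψ q / q}) = 0 := by
  have h : ∀ᶠ γ in residual ℝ, ∀ k, γ ∈ Ok ψ k := by
    rw [eventually_countable_forall]
    exact fun k => residual_of_dense_open (isOpen_Ok ψ k) (dense_Ok ψ hψ hdiv k)
  exact h.mono fun γ hγ => generic ψ γ hγ

end Pool.Agent.W2helper68.DSR
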